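import Mathlib

/-!
# Finite sets with small views from outside, and maps which are robust outside of them

`exists_closed`: in a weighted locally finite graph every finite set `K₀` is contained in a finite set `K` such that
every vertex outside of `K` has at most half of its weight inside `K` (take `K ⊇ K₀` with the smallest edge boundary).
`surj_of_confined`: if for every such `K` there is a background for which `K` does not influence the outside, then
injectivity on finite modifications implies surjectivity.
-/

set_option autoImplicit false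

namespace H71G

open Finset

theorem exists_closed {V : Type} (N : V → Finset V) (w : V → V → ℕ)
    (hsymm : ∀ u v, w u v = w v u) (hsupp : ∀ u v, w u v ≠ 0 → v ∈ N u) (K0 : Finset V) :
    ∃ K : Finset V, K0 ⊆ K ∧ ∀ g, g ∉ K → 2 * ∑ h ∈ K, w g h ≤ ∑ h ∈ N g, w g h := by
  classical
  let e : Finset V → ℕ := fun K => ∑ h ∈ K, ∑ v ∈ N h \ K, w h v
  have hex : ∃ n, ∃ K, K0 ⊆ K ∧ e K = n := ⟨_, K0, subset_rfl, rfl⟩
  obtain ⟨K, hK, hKe⟩ := Nat.find_spec hex
  have hmin : ∀ K', K0 ⊆ K' → e K ≤ e K' := by
    intro K' hK'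
    rw [hKe]
    exact Nat.find_min' hex ⟨K', hK', rfl⟩
  refine ⟨K, hK, fun g hg => ?_⟩
  have h1 := hmin (insert g K) (hK.trans (subset_insert g K))
  have h3 : e (insert g K) = (∑ v ∈ N g \ insert g K, w g v) + ∑ h ∈ K, ∑ v ∈ N h \ insert g K, w h v :=
    sum_insert hg
  have h4 : ∀ h ∈ K, (∑ v ∈ N h \ insert g K, w h v) + w g h = ∑ v ∈ N h \ K, w h v := by
    intro h hh
    by_cases hgN : g ∈ N h
    · have e1 : N h \ K = insert g (N h \ insert g K) := by
        ext v
        simp only [mem_sdiff, mem_insert]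
        constructor
        · rintro ⟨a, b⟩
          by_cases hv : v = g
          · exact Or.inl hv
          · exact Or.inr ⟨a, fun hc => hc.elim hv b⟩
        · rintro (rfl | ⟨a, b⟩)
          · exact ⟨hgN, hg⟩
          · exact ⟨a, fun hc => b (Or.inr hc)⟩
      rw [e1, sum_insert (by simp), hsymm g h, add_comm]
    · have hw0 : w g h = 0 := by
        by_contra hne
        exact hgN (hsupp h g (by rwa [hsymm h g]))
      have e1 : N h \ insert g K = N h \ K := by
        ext v
        simp only [mem_sdiff, mem_insert]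
        constructor
        · rintro ⟨a, b⟩
          exact ⟨a, fun hc => b (Or.inr hc)⟩
        · rintro ⟨a, b⟩
          refine ⟨a, fun hc => hc.elim (fun hv => hgN (hv ▸ a)) b⟩
      rw [e1, hw0, add_zero]
  have h5 : (∑ h ∈ K, ∑ v ∈ N h \ insert g K, w h v) + ∑ h ∈ K, w g h = e K := by
    rw [← sum_add_distrib]
    exact sum_congr rfl h4
  have h6 : (∑ v ∈ N g \ insert g K, w g v) ≤ ∑ v ∈ N g \ K, w g v :=
    sum_le_sum_of_subset (sdiff_subset_sdiff subset_rfl (subset_insert g K))
  have h7 : ∑ h ∈ N g, w g h = (∑ v ∈ N g \ K, w g v) + ∑ v ∈ N g ∩ K, w g v := by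
    rw [← sum_union (by
      rw [disjoint_left]
      intro v hv hv'
      exact (mem_sdiff.1 hv).2 (mem_inter.1 hv').2)]
    congr 1
    ext v
    simp only [mem_union, mem_sdiff, mem_inter]
    tauto
  have h8 : ∑ h ∈ K, w g h = ∑ v ∈ N g ∩ K, w g v := by
    symm
    refine sum_subset inter_subset_right fun v hv hv' => ?_
    by_contra hne
    exact hv' (mem_inter.2 ⟨hsupp g v hne, hv⟩)
  omega

/-- The configuration `u` on `K` and `c` outside. -/
noncomputable def ext {V A : Type} (K : Finset V) (c : V → A) (u : K → A) : V → A :=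
  open Classical in fun g => if h : g ∈ K then u ⟨g, h⟩ else c g

theorem ext_in {V A : Type} (K : Finset V) (c : V → A) (u : K → A) (g : V) (h : g ∈ K) : ext K c u g = u ⟨g, h⟩ := by
  unfold ext
  rw [dif_pos h]

theorem ext_out {V A : Type} (K : Finset V) (c : V → A) (u : K → A) (g : V) (h : g ∉ K) : ext K c u g = c g := by
  unfold ext
  rw [dif_neg h]

theorem surj_of_confined {V A : Type} [Finite A] [TopologicalSpace A] [DiscreteTopology A]
    (τ : (V → A) → (V → A)) (hτ : Continuous τ)
    (hcon : ∀ K0 : Finset V, ∃ K : Finset V, K0 ⊆ K ∧ ∃ c : V → A, ∀ u u' : K → A, ∀ g, g ∉ K →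
      τ (ext K c u) g = τ (ext K c u') g)
    (hinj : ∀ x y : V → A, {g | x g ≠ y g}.Finite → τ x = τ y → x = y) : Function.Surjective τ := by
  classical
  intro y
  have hfin : ∀ F : Finset V, ∃ x : V → A, ∀ g ∈ F, τ x g = y g := by
    intro F
    obtain ⟨K, hFK, c, hK⟩ := hcon F
    let φ : (K → A) → (K → A) := fun u k => τ (ext K c u) k
    have hφ : Function.Injective φ := by
      intro u u' huu
      have h1 : τ (ext K c u) = τ (ext K c u') := by
        funext g
        by_cases hg : g ∈ K
        · exact congrFun huu ⟨g, hg⟩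
        · exact hK u u' g hg
      have h2 : ext K c u = ext K c u' := by
        refine hinj _ _ ((K.finite_toSet).subset fun g hg => ?_) h1
        by_contra hgK
        have hgK' : g ∉ K := hgK
        exact hg (by rw [ext_out K c u g hgK', ext_out K c u' g hgK'])
      funext k
      have h3 := congrFun h2 k.1
      rwa [ext_in K c u k.1 k.2, ext_in K c u' k.1 k.2] at h3
    obtain ⟨u, hu⟩ := (Finite.injective_iff_surjective.1 hφ) (fun k => y k.1)
    exact ⟨ext K c u, fun g hg => congrFun hu ⟨g, hFK hg⟩⟩
  have hclosed : ∀ F : Finset V, IsClosed {x : V → A | ∀ g ∈ F, τ x g = y g} := by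
    intro F
    have : {x : V → A | ∀ g ∈ F, τ x g = y g} = ⋂ g ∈ F, {x | τ x g = y g} := by
      ext x; simp
    rw [this]
    refine isClosed_biInter fun g _ => ?_
    have hc : Continuous fun x => τ x g := (continuous_apply g).comp hτ
    exact (isClosed_singleton (x := y g)).preimage hc
  have hne := IsCompact.nonempty_iInter_of_directed_nonempty_isCompact_isClosed
    (fun F : Finset V => {x : V → A | ∀ g ∈ F, τ x g = y g})
    (by
      intro F F'
      refine ⟨F ∪ F', fun x hx g hg => hx g (mem_union_left _ hg), fun x hx g hg => hx g (mem_union_right _ hg)⟩)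
    (fun F => hfin F) (fun F => (hclosed F).isCompact) hclosed
  obtain ⟨x, hx⟩ := hne
  refine ⟨x, funext fun g => ?_⟩
  have := Set.mem_iInter.1 hx {g}
  exact this g (mem_singleton_self g)

/-- A configuration robust against changes of at most half of the weights. -/
theorem robust {V A : Type} [Finite A] [TopologicalSpace A] [DiscreteTopology A]
    (N : V → Finset V) (w : V → V → ℕ) (hsymm : ∀ u v, w u v = w v u) (hsupp : ∀ u v, w u v ≠ 0 → v ∈ N u)
    (τ : (V → A) → (V → A)) (hτ : Continuous τ) (c : V → A)
    (hc : ∀ (g : V) (E : Finset V) (x : V → A), (∀ h, h ∉ E → x h = c h) → g ∉ E →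
      2 * ∑ h ∈ E, w g h ≤ ∑ h ∈ N g, w g h → τ x g = τ c g)
    (hinj : ∀ x y : V → A, {g | x g ≠ y g}.Finite → τ x = τ y → x = y) : Function.Surjective τ := by
  refine surj_of_confined τ hτ (fun K0 => ?_) hinj
  obtain ⟨K, hK, hw⟩ := exists_closed N w hsymm hsupp K0
  refine ⟨K, hK, c, fun u u' g hg => ?_⟩
  rw [hc g K (ext K c u) (fun h hh => ext_out K c u h hh) hg (hw g hg),
    hc g K (ext K c u') (fun h hh => ext_out K c u' h hh) hg (hw g hg)]

end H71G
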