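import Pool.Agent.Lib.H71G.Sub

/-!
# Binary cellular automata with three cells over arbitrary groups
-/

set_option autoImplicit false

namespace H71G

open Finset

/-- A cellular automaton whose memory consists of powers of one element is surjunctive. -/
theorem cyclic_memory {G : Type} [Group G] {A : Type} [Finite A] {ι : Type} (h : G) (n : ι → ℤ) (μ : (ι → A) → A)
    [Finite ι]
    (hinj : Function.Injective (fun (x : G → A) (g : G) => μ (fun k => x (g * h ^ n k)))) :
    Function.Surjective (fun (x : G → A) (g : G) => μ (fun k => x (g * h ^ n k))) := by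
  classical
  letI : TopologicalSpace A := ⊥
  haveI : DiscreteTopology A := ⟨rfl⟩
  set τ : (G → A) → (G → A) := fun x g => μ (fun k => x (g * h ^ n k)) with hτ
  have hcont : Continuous τ := by
    refine continuous_pi fun g => ?_
    have h1 : Continuous μ := continuous_of_discreteTopology
    exact h1.comp (continuous_pi fun m => continuous_apply _)
  refine surj_of_approx τ hcont fun y F => ?_
  by_cases hA : Nonempty A
  swap
  · exact absurd ⟨y 1⟩ hA
  obtain ⟨a0⟩ := hA
  -- the period
  obtain ⟨N, hN0, hN⟩ : ∃ N : ℕ, 0 < N ∧ ∀ f ∈ F, ∀ f' ∈ F, f⁻¹ * f' ∈ Subgroup.zpowers (h ^ N) → f = f' := by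
    by_cases hfin : IsOfFinOrder h
    · refine ⟨orderOf h, hfin.orderOf_pos, fun f _ f' _ hff => ?_⟩
      rw [pow_orderOf_eq_one, Subgroup.zpowers_one_eq_bot, Subgroup.mem_bot] at hff
      exact (inv_mul_eq_one.1 hff)
    · -- exponents
      have hk : ∀ z : G × G, ∃ k : ℕ, ∀ i : ℤ, z.1⁻¹ * z.2 = h ^ i → i.natAbs ≤ k := by
        intro z
        by_cases hz : ∃ i : ℤ, z.1⁻¹ * z.2 = h ^ i
        · obtain ⟨i, hi⟩ := hz
          refine ⟨i.natAbs, fun j hj => ?_⟩
          have : h ^ i = h ^ j := hi.symm.trans hj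
          have := injective_zpow_iff_not_isOfFinOrder.2 hfin this
          rw [this]
        · exact ⟨0, fun i hi => absurd ⟨i, hi⟩ hz⟩
      choose k hk using hk
      refine ⟨(∑ z ∈ F ×ˢ F, k z) + 1, Nat.succ_pos _, fun f hf f' hf' hff => ?_⟩
      obtain ⟨j, hj⟩ := Subgroup.mem_zpowers_iff.1 hff
      rw [← zpow_natCast, ← zpow_mul] at hj
      have h1 := hk (f, f') _ hj.symm
      have h2 : k (f, f') ≤ ∑ z ∈ F ×ˢ F, k z :=
        single_le_sum (fun _ _ => Nat.zero_le _) (mem_product.2 ⟨hf, hf'⟩)
      rw [Int.natAbs_mul] at h1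
      have h3 : j.natAbs = 0 := by
        by_contra hne
        have h4 : 1 ≤ j.natAbs := Nat.one_le_iff_ne_zero.2 hne
        have h5 : (∑ z ∈ F ×ˢ F, k z) + 1 ≤ (((∑ z ∈ F ×ˢ F, k z) + 1 : ℕ) : ℤ).natAbs * j.natAbs := by
          rw [Int.natAbs_natCast]
          exact Nat.le_mul_of_pos_right _ h4
        omega
      rw [Int.natAbs_eq_zero] at h3
      rw [h3, mul_zero, zpow_zero] at hj
      exact inv_mul_eq_one.1 hj.symm
  -- periodic configurations on one coset
  let Q : Type := G ⧸ Subgroup.zpowers h
  let cl : G → Q := fun g => QuotientGroup.mk g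
  have hcl : ∀ (g : G) (i : ℤ), cl (g * h ^ i) = cl g := by
    intro g i
    refine (QuotientGroup.eq).2 ?_
    have : (g * h ^ i)⁻¹ * g = h ^ (-i) := by group
    rw [this]
    exact Subgroup.mem_zpowers_iff.2 ⟨_, rfl⟩
  let X : Q → Set (G → A) := fun q => {x | (∀ g, cl g ≠ q → x g = a0) ∧ ∀ g, x (g * h ^ N) = x g}
  have hper : ∀ (x : G → A), (∀ g, x (g * h ^ N) = x g) → ∀ (g : G) (j : ℤ), x (g * (h ^ N) ^ j) = x g := by
    intro x hx g j
    induction j using Int.induction_on generalizing g with
    | zero => simp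
    | succ i ih =>
      rw [zpow_add_one, ← mul_assoc, hx, ih]
    | pred i ih =>
      rw [zpow_sub_one, ← mul_assoc, ← hx (g * (h ^ N) ^ (-(i : ℤ)) * (h ^ N)⁻¹)]
      rw [inv_mul_cancel_right, ih]
  have hXfin : ∀ q, (X q).Finite := by
    intro q
    obtain ⟨g0, hg0⟩ := QuotientGroup.mk_surjective q
    refine Set.Finite.of_injOn (f := fun (x : G → A) (i : Fin N) => x (g0 * h ^ (i : ℕ))) (t := Set.univ)
      (fun _ _ => Set.mem_univ _) ?_ (Set.toFinite _)
    intro x hx x' hx' hxx
    funext g
    by_cases hg : cl g = q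
    · have h1 : g0⁻¹ * g ∈ Subgroup.zpowers h := by
        have : (QuotientGroup.mk g0 : Q) = QuotientGroup.mk g := by
          rw [hg0]
          exact hg.symm
        exact QuotientGroup.eq.1 this
      obtain ⟨i, hi⟩ := Subgroup.mem_zpowers_iff.1 h1
      have h2 : g = g0 * h ^ (i % N) * (h ^ N) ^ (i / N) := by
        have e1 : (h ^ N) ^ (i / N) = h ^ ((N : ℤ) * (i / N)) := by
          rw [← zpow_natCast, ← zpow_mul]
        rw [e1, mul_assoc, ← zpow_add, Int.emod_add_mul_ediv, hi]
        group
      have hNz : (0 : ℤ) < N := by exact_mod_cast hN0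
      have h3 : 0 ≤ i % N := Int.emod_nonneg _ hNz.ne'
      have h4 : i % N < N := Int.emod_lt_of_pos _ hNz
      obtain ⟨r, hr⟩ := Int.eq_ofNat_of_zero_le h3
      have h5 : r < N := by omega
      rw [h2, hper x hx.2, hper x' hx'.2, hr]
      have := congrFun hxx ⟨r, h5⟩
      simpa using this
    · rw [hx.1 g hg, hx'.1 g hg]
  -- the map on one coset
  have hsurj : ∀ (q : Q) (z : G → A), z ∈ X q → ∃ x ∈ X q, ∀ g, cl g = q → τ x g = z g := by
    intro q z hz
    haveI : Finite (X q) := (hXfin q).to_subtype
    let φ : X q → X q := fun x => ⟨fun g => if cl g = q then τ x.1 g else a0, by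
      refine ⟨fun g hg => if_neg hg, fun g => ?_⟩
      have e1 : cl (g * h ^ N) = cl g := by
        have := hcl g N
        rwa [zpow_natCast] at this
      show (if cl (g * h ^ N) = q then τ x.1 (g * h ^ N) else a0) = if cl g = q then τ x.1 g else a0
      rw [e1]
      by_cases hg : cl g = q
      · rw [if_pos hg, if_pos hg]
        show μ _ = μ _
        congr 1
        funext k
        have e2 : g * h ^ N * h ^ n k = g * h ^ n k * h ^ N := by
          rw [mul_assoc, mul_assoc, ← zpow_natCast, ← zpow_add, ← zpow_add, add_comm]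
        rw [e2, x.2.2]
      · rw [if_neg hg, if_neg hg]⟩
    have hφ : Function.Injective φ := by
      intro x x' hxx
      apply Subtype.ext
      apply hinj
      funext g
      by_cases hg : cl g = q
      · have := congrFun (congrArg Subtype.val hxx) g
        have h1 : (if cl g = q then τ x.1 g else a0) = if cl g = q then τ x'.1 g else a0 := this
        rw [if_pos hg, if_pos hg] at h1
        exact h1
      · show μ _ = μ _
        congr 1
        funext k
        have hg' : cl (g * h ^ n k) ≠ q := by rwa [hcl]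
        rw [x.2.1 _ hg', x'.2.1 _ hg']
    obtain ⟨x, hx⟩ := Finite.injective_iff_surjective.1 hφ ⟨z, hz⟩
    refine ⟨x.1, x.2, fun g hg => ?_⟩
    have := congrFun (congrArg Subtype.val hx) g
    have h1 : (if cl g = q then τ x.1 g else a0) = z g := this
    rwa [if_pos hg] at h1
  -- the target
  let z : Q → (G → A) := fun q g =>
    if hg : cl g = q ∧ ∃ f ∈ F, f⁻¹ * g ∈ Subgroup.zpowers (h ^ N) then y hg.2.choose else a0
  have hz : ∀ q, z q ∈ X q := by
    intro q
    refine ⟨fun g hg => dif_neg (fun h' => hg h'.1), fun g => ?_⟩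
    have e1 : cl (g * h ^ N) = cl g := by
      have := hcl g N
      rwa [zpow_natCast] at this
    have e2 : ∀ f, f⁻¹ * (g * h ^ N) ∈ Subgroup.zpowers (h ^ N) ↔ f⁻¹ * g ∈ Subgroup.zpowers (h ^ N) := by
      intro f
      rw [← mul_assoc]
      exact Subgroup.mul_mem_cancel_right _ (Subgroup.mem_zpowers _)
    show (if hg : cl (g * h ^ N) = q ∧ ∃ f ∈ F, f⁻¹ * (g * h ^ N) ∈ Subgroup.zpowers (h ^ N) then y hg.2.choose else a0) =
      if hg : cl g = q ∧ ∃ f ∈ F, f⁻¹ * g ∈ Subgroup.zpowers (h ^ N) then y hg.2.choose else a0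
    by_cases hg : cl g = q ∧ ∃ f ∈ F, f⁻¹ * g ∈ Subgroup.zpowers (h ^ N)
    · have hg' : cl (g * h ^ N) = q ∧ ∃ f ∈ F, f⁻¹ * (g * h ^ N) ∈ Subgroup.zpowers (h ^ N) := by
        refine ⟨e1.trans hg.1, ?_⟩
        obtain ⟨f, hf, hfg⟩ := hg.2
        exact ⟨f, hf, (e2 f).2 hfg⟩
      rw [dif_pos hg, dif_pos hg']
      congr 1
      have h1 := hg.2.choose_spec
      have h2 := hg'.2.choose_spec
      refine hN _ h2.1 _ h1.1 ?_
      have h3 := (e2 _).1 h2.2
      have h4 : hg'.2.choose⁻¹ * hg.2.choose = (hg'.2.choose⁻¹ * g) * (hg.2.choose⁻¹ * g)⁻¹ := by group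
      rw [h4]
      exact Subgroup.mul_mem _ h3 (Subgroup.inv_mem _ h1.2)
    · have hg' : ¬ (cl (g * h ^ N) = q ∧ ∃ f ∈ F, f⁻¹ * (g * h ^ N) ∈ Subgroup.zpowers (h ^ N)) := by
        rintro ⟨h1, f, hf, hfg⟩
        exact hg ⟨e1.symm.trans h1, f, hf, (e2 f).1 hfg⟩
      rw [dif_neg hg, dif_neg hg']
  choose x hx hxz using fun q => hsurj q (z q) (hz q)
  refine ⟨fun g => x (cl g) g, fun g hg => ?_⟩
  have h1 : τ (fun g => x (cl g) g) g = τ (x (cl g)) g := by
    show μ _ = μ _
    congr 1
    funext k
    show x (cl (g * h ^ n k)) (g * h ^ n k) = x (cl g) (g * h ^ n k)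
    rw [hcl]
  rw [h1, hxz (cl g) g rfl]
  have h2 : cl g = cl g ∧ ∃ f ∈ F, f⁻¹ * g ∈ Subgroup.zpowers (h ^ N) :=
    ⟨rfl, g, hg, by rw [inv_mul_cancel]; exact Subgroup.one_mem _⟩
  show (if hg : cl g = cl g ∧ ∃ f ∈ F, f⁻¹ * g ∈ Subgroup.zpowers (h ^ N) then y hg.2.choose else a0) = y g
  rw [dif_pos h2]
  have h3 := h2.2.choose_spec
  rw [hN _ h3.1 g hg h3.2]

section bool

variable {G : Type} [Group G]

/-- The cellular automaton with the local rule f on the cells 1, s, t. -/
def F3 (f : Bool → Bool → Bool → Bool) (s t : G) (x : G → Bool) : G → Bool :=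
  fun g => f (x g) (x (g * s)) (x (g * t))

open Classical in
/-- The indicator function. -/
noncomputable def ind (D : Subgroup G) : G → Bool := fun g => if g ∈ D then true else false

theorem ind_pos {D : Subgroup G} {g : G} (h : g ∈ D) : ind D g = true := if_pos h
theorem ind_neg {D : Subgroup G} {g : G} (h : g ∉ D) : ind D g = false := if_neg h

theorem const_ne {f : Bool → Bool → Bool → Bool} {s t : G} (hinj : Function.Injective (F3 f s t)) :
    f false false false ≠ f true true true := by
  intro h
  have h1 : F3 f s t (fun _ => false) = F3 f s t (fun _ => true) := by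
    funext g
    exact h
  have := congrFun (hinj h1) 1
  exact absurd this (by decide)

/-- Two configurations which agree except for the complement. -/
theorem two_val {f : Bool → Bool → Bool → Bool} {s t : G} (hinj : Function.Injective (F3 f s t)) (D : Subgroup G)
    (u v : Bool)
    (h1 : ∀ g ∈ D, ∀ e : Bool, f (xor e (ind D g)) (xor e (ind D (g * s))) (xor e (ind D (g * t))) = if e then v else u)
    (h0 : ∀ g, g ∉ D → ∀ e : Bool, f (xor e (ind D g)) (xor e (ind D (g * s))) (xor e (ind D (g * t))) = f e e e ∨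
      f (xor e (ind D g)) (xor e (ind D (g * s))) (xor e (ind D (g * t))) = if e then u else v)  : u ≠ v := by
  have hne := const_ne hinj
  intro huv
  subst huv
  -- the common value is the value of one of the constants
  have key : ∀ e : Bool, u = f e e e → False := by
    intro e he
    have h2 : F3 f s t (fun g => xor e (ind D g)) = F3 f s t (fun _ => e) := by
      funext g
      show f (xor e (ind D g)) (xor e (ind D (g * s))) (xor e (ind D (g * t))) = f e e e
      by_cases hg : g ∈ D
      · rw [h1 g hg e, ← he]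
        cases e <;> rfl
      · rcases h0 g hg e with h | h
        · exact h
        · rw [h, ← he]
          cases e <;> rfl
    have h3 := congrFun (hinj h2) 1
    rw [ind_pos D.one_mem] at h3
    cases e <;> exact absurd h3 (by decide)
  cases hu : u <;> cases hf0 : f false false false <;> cases hf1 : f true true true
  all_goals first
    | exact hne (hf0.trans hf1.symm)
    | exact key false (hu.trans hf0.symm)
    | exact key true (hu.trans hf1.symm)

/-- Flipping the cell 1 of a configuration. -/
theorem flip_one {f : Bool → Bool → Bool → Bool} {s t : G} (hinj : Function.Injective (F3 f s t))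
    (hs : s ≠ 1) (ht : t ≠ 1) (hst : s ≠ t) (x : G → Bool)
    (h1 : f false (x s) (x t) = f true (x s) (x t))
    (h2 : f (x s⁻¹) false (x (s⁻¹ * t)) = f (x s⁻¹) true (x (s⁻¹ * t)))
    (h3 : f (x t⁻¹) (x (t⁻¹ * s)) false = f (x t⁻¹) (x (t⁻¹ * s)) true) : False := by
  classical
  have key : ∀ e : Bool, F3 f s t (Function.update x 1 e) = F3 f s t (Function.update x 1 false) := by
    intro e
    funext g
    show f (Function.update x 1 e g) (Function.update x 1 e (g * s)) (Function.update x 1 e (g * t)) =
      f (Function.update x 1 false g) (Function.update x 1 false (g * s)) (Function.update x 1 false (g * t))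
    by_cases hg1 : g = 1
    · subst hg1
      rw [one_mul, one_mul, Function.update_self, Function.update_self, Function.update_of_ne hs,
        Function.update_of_ne ht, Function.update_of_ne hs, Function.update_of_ne ht]
      cases e
      · rfl
      · exact h1.symm
    · by_cases hgs : g * s = 1
      · have hg : g = s⁻¹ := eq_inv_of_mul_eq_one_left hgs
        have hgt : g * t ≠ 1 := by
          intro h
          exact hst (mul_left_cancel (hgs.trans h.symm))
        rw [Function.update_of_ne hg1, Function.update_of_ne hg1, hgs, Function.update_self, Function.update_self,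
          Function.update_of_ne hgt, Function.update_of_ne hgt, hg]
        cases e
        · rfl
        · exact h2.symm
      · by_cases hgt : g * t = 1
        · have hg : g = t⁻¹ := eq_inv_of_mul_eq_one_left hgt
          rw [Function.update_of_ne hg1, Function.update_of_ne hg1, hgt, Function.update_self, Function.update_self,
            Function.update_of_ne hgs, Function.update_of_ne hgs, hg]
          cases e
          · rfl
          · exact h3.symm
        · rw [Function.update_of_ne hg1, Function.update_of_ne hg1, Function.update_of_ne hgs,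
            Function.update_of_ne hgs, Function.update_of_ne hgt, Function.update_of_ne hgt]
  have h4 := congrFun (hinj (key true)) 1
  rw [Function.update_self, Function.update_self] at h4
  exact absurd h4 (by decide)

theorem classify {f : Bool → Bool → Bool → Bool} {s t : G} (hinj : Function.Injective (F3 f s t))
    (hcyc : ¬ ∃ h : G, s ∈ Subgroup.zpowers h ∧ t ∈ Subgroup.zpowers h) :
    ∃ e : Bool, (∀ x y z, f x y z = xor e x) ∨ (∀ x y z, f x y z = xor e y) ∨ (∀ x y z, f x y z = xor e z) ∨
      (∀ x y z, f x y z = xor e (xor x (xor y z))) := by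
  have hts : t ∉ Subgroup.zpowers s := fun h => hcyc ⟨s, Subgroup.mem_zpowers s, h⟩
  have hst' : s ∉ Subgroup.zpowers t := fun h => hcyc ⟨t, h, Subgroup.mem_zpowers t⟩
  have hsu : s ∉ Subgroup.zpowers (s⁻¹ * t) := by
    intro h
    refine hcyc ⟨s⁻¹ * t, h, ?_⟩
    have e : t = s * (s⁻¹ * t) := by group
    rw [e]
    have e' : s⁻¹ * (s * (s⁻¹ * t)) = s⁻¹ * t := by group
    rw [e']
    exact Subgroup.mul_mem _ h (Subgroup.mem_zpowers _)
  have htu : t ∉ Subgroup.zpowers (s⁻¹ * t) := by
    intro h
    apply hsu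
    have e : s = t * (s⁻¹ * t)⁻¹ := by group
    have := Subgroup.mul_mem _ h (Subgroup.inv_mem _ (Subgroup.mem_zpowers (s⁻¹ * t)))
    rwa [← e] at this
  have hs1 : s ≠ 1 := fun h => hst' (h ▸ Subgroup.one_mem _)
  have ht1 : t ≠ 1 := fun h => hts (h ▸ Subgroup.one_mem _)
  have hst : s ≠ t := fun h => hts (h ▸ Subgroup.mem_zpowers s)
  have i0 := const_ne hinj
  -- the three inequalities
  have i1 : f true true false ≠ f false false true := by
    refine two_val hinj (Subgroup.zpowers s) _ _ ?_ ?_
    · intro g hg e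
      have h1 : g * s ∈ Subgroup.zpowers s := Subgroup.mul_mem _ hg (Subgroup.mem_zpowers s)
      have h2 : g * t ∉ Subgroup.zpowers s := fun h => hts ((Subgroup.mul_mem_cancel_left _ hg).1 h)
      rw [ind_pos hg, ind_pos h1, ind_neg h2]
      cases e <;> rfl
    · intro g hg e
      have h1 : g * s ∉ Subgroup.zpowers s := fun h =>
        hg ((Subgroup.mul_mem_cancel_right _ (Subgroup.mem_zpowers s)).1 h)
      rw [ind_neg hg, ind_neg h1]
      by_cases h2 : g * t ∈ Subgroup.zpowers s
      · rw [ind_pos h2]
        right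
        cases e <;> rfl
      · rw [ind_neg h2]
        left
        cases e <;> rfl
  have i2 : f true false true ≠ f false true false := by
    refine two_val hinj (Subgroup.zpowers t) _ _ ?_ ?_
    · intro g hg e
      have h1 : g * t ∈ Subgroup.zpowers t := Subgroup.mul_mem _ hg (Subgroup.mem_zpowers t)
      have h2 : g * s ∉ Subgroup.zpowers t := fun h => hst' ((Subgroup.mul_mem_cancel_left _ hg).1 h)
      rw [ind_pos hg, ind_pos h1, ind_neg h2]
      cases e <;> rfl
    · intro g hg e
      have h1 : g * t ∉ Subgroup.zpowers t := fun h =>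
        hg ((Subgroup.mul_mem_cancel_right _ (Subgroup.mem_zpowers t)).1 h)
      rw [ind_neg hg, ind_neg h1]
      by_cases h2 : g * s ∈ Subgroup.zpowers t
      · rw [ind_pos h2]
        right
        cases e <;> rfl
      · rw [ind_neg h2]
        left
        cases e <;> rfl
  have hmul : ∀ g : G, g * t ∈ Subgroup.zpowers (s⁻¹ * t) ↔ g * s ∈ Subgroup.zpowers (s⁻¹ * t) := by
    intro g
    have e : g * t = g * s * (s⁻¹ * t) := by group
    rw [e]
    exact Subgroup.mul_mem_cancel_right _ (Subgroup.mem_zpowers _)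
  have i3 : f true false false ≠ f false true true := by
    refine two_val hinj (Subgroup.zpowers (s⁻¹ * t)) _ _ ?_ ?_
    · intro g hg e
      have h1 : g * s ∉ Subgroup.zpowers (s⁻¹ * t) := fun h => hsu ((Subgroup.mul_mem_cancel_left _ hg).1 h)
      have h2 : g * t ∉ Subgroup.zpowers (s⁻¹ * t) := fun h => h1 ((hmul g).1 h)
      rw [ind_pos hg, ind_neg h1, ind_neg h2]
      cases e <;> rfl
    · intro g hg e
      rw [ind_neg hg]
      by_cases h1 : g * s ∈ Subgroup.zpowers (s⁻¹ * t)
      · rw [ind_pos h1, ind_pos ((hmul g).2 h1)]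
        right
        cases e <;> rfl
      · rw [ind_neg h1, ind_neg (fun h => h1 ((hmul g).1 h))]
        left
        cases e <;> rfl
  -- values of the indicators
  have si : s⁻¹ ∈ Subgroup.zpowers s := Subgroup.inv_mem _ (Subgroup.mem_zpowers s)
  have a1 : s⁻¹ * t ∉ Subgroup.zpowers s := fun h => hts ((Subgroup.mul_mem_cancel_left _ si).1 h)
  have a2 : t⁻¹ ∉ Subgroup.zpowers s := fun h => hts ((Subgroup.inv_mem_iff _).1 h)
  have a3 : t⁻¹ * s ∉ Subgroup.zpowers s := fun h =>
    a2 ((Subgroup.mul_mem_cancel_right _ (Subgroup.mem_zpowers s)).1 h)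
  have ti : t⁻¹ ∈ Subgroup.zpowers t := Subgroup.inv_mem _ (Subgroup.mem_zpowers t)
  have b1 : t⁻¹ * s ∉ Subgroup.zpowers t := fun h => hst' ((Subgroup.mul_mem_cancel_left _ ti).1 h)
  have b2 : s⁻¹ ∉ Subgroup.zpowers t := fun h => hst' ((Subgroup.inv_mem_iff _).1 h)
  have b3 : s⁻¹ * t ∉ Subgroup.zpowers t := fun h =>
    b2 ((Subgroup.mul_mem_cancel_right _ (Subgroup.mem_zpowers t)).1 h)
  have c1 : s⁻¹ ∉ Subgroup.zpowers (s⁻¹ * t) := fun h => hsu ((Subgroup.inv_mem_iff _).1 h)
  have c2 : t⁻¹ ∉ Subgroup.zpowers (s⁻¹ * t) := fun h => htu ((Subgroup.inv_mem_iff _).1 h)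
  have c3 : t⁻¹ * s ∈ Subgroup.zpowers (s⁻¹ * t) := by
    have e : t⁻¹ * s = (s⁻¹ * t)⁻¹ := by group
    rw [e]
    exact Subgroup.inv_mem _ (Subgroup.mem_zpowers _)
  cases h000 : f false false false <;> cases h100 : f true false false <;> cases h010 : f false true false <;>
    cases h001 : f false false true <;> cases h110 : f true true false <;> cases h101 : f true false true <;>
    cases h011 : f false true true <;> cases h111 : f true true true
  all_goals first
    | exact absurd (h000.trans h111.symm) i0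
    | exact absurd (h110.trans h001.symm) i1
    | exact absurd (h101.trans h010.symm) i2
    | exact absurd (h100.trans h011.symm) i3
    | (refine ⟨false, Or.inl ?_⟩; intro x y z; cases x <;> cases y <;> cases z <;> simp [h000, h100, h010, h001, h110, h101, h011, h111]; done)
    | (refine ⟨true, Or.inl ?_⟩; intro x y z; cases x <;> cases y <;> cases z <;> simp [h000, h100, h010, h001, h110, h101, h011, h111]; done)
    | (refine ⟨false, Or.inr (Or.inl ?_)⟩; intro x y z; cases x <;> cases y <;> cases z <;> simp [h000, h100, h010, h001, h110, h101, h011, h111]; done)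
    | (refine ⟨true, Or.inr (Or.inl ?_)⟩; intro x y z; cases x <;> cases y <;> cases z <;> simp [h000, h100, h010, h001, h110, h101, h011, h111]; done)
    | (refine ⟨false, Or.inr (Or.inr (Or.inl ?_))⟩; intro x y z; cases x <;> cases y <;> cases z <;> simp [h000, h100, h010, h001, h110, h101, h011, h111]; done)
    | (refine ⟨true, Or.inr (Or.inr (Or.inl ?_))⟩; intro x y z; cases x <;> cases y <;> cases z <;> simp [h000, h100, h010, h001, h110, h101, h011, h111]; done)
    | (refine ⟨false, Or.inr (Or.inr (Or.inr ?_))⟩; intro x y z; cases x <;> cases y <;> cases z <;> simp [h000, h100, h010, h001, h110, h101, h011, h111]; done)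
    | (refine ⟨true, Or.inr (Or.inr (Or.inr ?_))⟩; intro x y z; cases x <;> cases y <;> cases z <;> simp [h000, h100, h010, h001, h110, h101, h011, h111]; done)
    | (exfalso; refine flip_one hinj hs1 ht1 hst (fun _ => false) ?_ ?_ ?_
       · (simp [h000, h100, h010, h001, h110, h101, h011, h111]; done)
       · (simp [h000, h100, h010, h001, h110, h101, h011, h111]; done)
       · (simp [h000, h100, h010, h001, h110, h101, h011, h111]; done))
    | (exfalso; refine flip_one hinj hs1 ht1 hst (ind (Subgroup.zpowers s)) ?_ ?_ ?_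
       · (rw [ind_pos (Subgroup.mem_zpowers s), ind_neg hts]; simp [h000, h100, h010, h001, h110, h101, h011, h111]; done)
       · (rw [ind_pos si, ind_neg a1]; simp [h000, h100, h010, h001, h110, h101, h011, h111]; done)
       · (rw [ind_neg a2, ind_neg a3]; simp [h000, h100, h010, h001, h110, h101, h011, h111]; done))
    | (exfalso; refine flip_one hinj hs1 ht1 hst (ind (Subgroup.zpowers t)) ?_ ?_ ?_
       · (rw [ind_neg hst', ind_pos (Subgroup.mem_zpowers t)]; simp [h000, h100, h010, h001, h110, h101, h011, h111]; done)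
       · (rw [ind_neg b2, ind_neg b3]; simp [h000, h100, h010, h001, h110, h101, h011, h111]; done)
       · (rw [ind_pos ti, ind_neg b1]; simp [h000, h100, h010, h001, h110, h101, h011, h111]; done))
    | (exfalso; refine flip_one hinj hs1 ht1 hst (ind (Subgroup.zpowers (s⁻¹ * t))) ?_ ?_ ?_
       · (rw [ind_neg hsu, ind_neg htu]; simp [h000, h100, h010, h001, h110, h101, h011, h111]; done)
       · (rw [ind_neg c1, ind_pos (Subgroup.mem_zpowers (s⁻¹ * t))]; simp [h000, h100, h010, h001, h110, h101, h011, h111]; done)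
       · (rw [ind_neg c2, ind_pos c3]; simp [h000, h100, h010, h001, h110, h101, h011, h111]; done))

end bool

end H71G
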