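import Pool.Agent.Lib.H71G.Core
import Pool.Agent.Lib.Prob48.LLL

/-!
# Cellular automata with few sensitive partial patterns
-/

set_option autoImplicit false

namespace H71G

open Finset Pool.Agent.Lib.Prob48

/-- Uniform weights. -/
noncomputable def unif (V A : Type) [Fintype A] [Nonempty A] : Weights (fun _ : V => A) where
  w _ _ := 1 / (Fintype.card A : ℝ)
  nonneg _ _ := by positivity
  sum_one _ := by
    rw [sum_const, card_univ, nsmul_eq_mul]
    have : (Fintype.card A : ℝ) ≠ 0 := by exact_mod_cast Fintype.card_ne_zero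
    field_simp

theorem unif_P {V A : Type} [Fintype V] [DecidableEq V] [Fintype A] [Nonempty A] (E : (V → A) → Prop) :
    (unif V A).P E = (Nat.card {ω : V → A // E ω} : ℝ) / (Fintype.card A : ℝ) ^ Fintype.card V := by
  classical
  unfold Weights.P Weights.E
  have h1 : ∀ ω : V → A, (unif V A).pw ω = (1 / (Fintype.card A : ℝ)) ^ Fintype.card V := by
    intro ω
    unfold Weights.pw
    show ∏ _v : V, 1 / (Fintype.card A : ℝ) = _
    rw [prod_const, card_univ]
  rw [sum_congr rfl fun ω _ => by rw [h1 ω], ← mul_sum, sum_boole, Nat.card_eq_fintype_card, Fintype.card_subtype]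
  rw [one_div, inv_pow]
  field_simp

theorem count_restr {V A ι : Type} [Fintype V] [DecidableEq V] [Fintype A] [Fintype ι] (j : ι → V)
    (hj : Function.Injective j) (Q : Set (ι → A)) :
    Nat.card {ω : V → A // (fun i => ω (j i)) ∈ Q} * Fintype.card A ^ Fintype.card ι =
      Nat.card Q * Fintype.card A ^ Fintype.card V := by
  classical
  let e1 : (V → A) ≃ ({v // v ∈ Set.range j} → A) × ({v // ¬ v ∈ Set.range j} → A) :=
    Equiv.piEquivPiSubtypeProd (fun v => v ∈ Set.range j) (fun _ => A)
  let e2 : ({v // v ∈ Set.range j} → A) ≃ (ι → A) := (Equiv.ofInjective j hj).symm.arrowCongr (Equiv.refl A)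
  have he : ∀ ω i, e2 ((e1 ω).1) i = ω (j i) := fun ω i => rfl
  have e3 : {ω : V → A // (fun i => ω (j i)) ∈ Q} ≃ Q × ({v // ¬ v ∈ Set.range j} → A) :=
    { toFun := fun ω => (⟨e2 (e1 ω.1).1, by
        have := ω.2
        exact this⟩, (e1 ω.1).2)
      invFun := fun s => ⟨e1.symm (e2.symm s.1.1, s.2), by
        have h : (fun i => (e1.symm (e2.symm s.1.1, s.2)) (j i)) = s.1.1 := by
          funext i
          exact (he _ i).symm.trans (by rw [Equiv.apply_symm_apply, Equiv.apply_symm_apply])
        show _ ∈ Q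
        rw [h]
        exact s.1.2⟩
      left_inv := fun ω => by
        apply Subtype.ext
        simp
      right_inv := fun s => by
        apply Prod.ext
        · apply Subtype.ext
          simp
        · simp }
  rw [Nat.card_congr e3, Nat.card_prod, Nat.card_eq_fintype_card (α := {v // ¬ v ∈ Set.range j} → A), Fintype.card_fun]
  have h2 : Fintype.card V = Fintype.card ι + Fintype.card {v // ¬ v ∈ Set.range j} := by
    have h3 : Fintype.card {v // v ∈ Set.range j} = Fintype.card ι :=
      (Fintype.card_congr (Equiv.ofInjective j hj)).symm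
    rw [← h3, ← Fintype.card_sum]
    exact (Fintype.card_congr (Equiv.sumCompl _)).symm
  rw [h2, pow_add]
  ring

/-- The partial patterns on M \ I which do not determine the value of the local rule. -/
def Sens {G A : Type} (M : Finset G) (μ : (M → A) → A) (I : Finset G) : Set ({m : G // m ∈ M ∧ m ∉ I} → A) :=
  {q | ∃ p p' : M → A, (∀ (m : G) (hm : m ∈ M ∧ m ∉ I), p ⟨m, hm.1⟩ = q ⟨m, hm⟩ ∧ p' ⟨m, hm.1⟩ = q ⟨m, hm⟩) ∧
    μ p ≠ μ p'}

theorem few {G : Type} [Group G] {A : Type} [Finite A] (M : Finset G) (hM : 1 ∈ M) (μ : (M → A) → A)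
    (S : Finset G) (w : G → ℕ) (hw : ∀ g, w g⁻¹ = w g) (hS : ∀ g, w g ≠ 0 → g ∈ S)
    (hfew : ∀ I : Finset G, I ⊆ M → 1 ∉ I → 2 * ∑ i ∈ I, w i ≤ ∑ s ∈ S, w s →
      4 * M.card ^ 2 * Nat.card (Sens M μ I) ≤ Nat.card A ^ (M.card - I.card))
    (hinj : ∀ x y : G → A, {g | x g ≠ y g}.Finite →
      (∀ g, μ (fun m => x (g * m)) = μ (fun m => y (g * m))) → x = y) :
    Function.Surjective (fun (x : G → A) (g : G) => μ (fun m => x (g * m))) := by
  classical
  haveI := Fintype.ofFinite A
  by_cases hA : Nonempty A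
  swap
  · intro y
    exact absurd ⟨y 1⟩ hA
  letI : TopologicalSpace A := ⊥
  haveI : DiscreteTopology A := ⟨rfl⟩
  refine surj_of_confined (fun (x : G → A) (g : G) => μ (fun m => x (g * m))) ?_ (fun K0 => ?_) ?_
  · refine continuous_pi fun g => ?_
    have h1 : Continuous μ := continuous_of_discreteTopology
    exact h1.comp (continuous_pi fun m => continuous_apply _)
  · obtain ⟨K, hK, hview⟩ := exists_closed (fun g => S.image (fun s => g * s)) (fun g h => w (g⁻¹ * h))
      (by
        intro u v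
        show w (u⁻¹ * v) = w (v⁻¹ * u)
        rw [← hw (u⁻¹ * v)]
        congr 1
        group)
      (by
        intro u v hne
        exact mem_image.2 ⟨u⁻¹ * v, hS _ hne, by group⟩) K0
    refine ⟨K, hK, ?_⟩
    -- inner views
    let I : G → Finset G := fun g => M.filter (fun m => g * m ∈ K)
    have hIM : ∀ g, I g ⊆ M := fun g => filter_subset _ _
    have hfinI : ∀ g, Fintype {m : G // m ∈ M ∧ m ∉ I g} := fun g =>
      Fintype.subtype (M \ I g) (fun m => mem_sdiff)
    have hI1 : ∀ g, g ∉ K → 1 ∉ I g := by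
      intro g hg h
      rw [mem_filter, mul_one] at h
      exact hg h.2
    have hIw : ∀ g, g ∉ K → 2 * ∑ i ∈ I g, w i ≤ ∑ s ∈ S, w s := by
      intro g hg
      have h1 := hview g hg
      have h2 : ∑ h ∈ S.image (fun s => g * s), w (g⁻¹ * h) = ∑ s ∈ S, w s := by
        rw [sum_image (by intro a _ b _ hab; exact mul_left_cancel hab)]
        refine sum_congr rfl fun s _ => ?_
        congr 1
        group
      have h3 : ∑ i ∈ I g, w i ≤ ∑ h ∈ K, w (g⁻¹ * h) := by
        have h4 : ∑ i ∈ I g, w i = ∑ h ∈ (I g).image (fun s => g * s), w (g⁻¹ * h) := by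
          rw [sum_image (by intro a _ b _ hab; exact mul_left_cancel hab)]
          refine sum_congr rfl fun s _ => ?_
          congr 1
          group
        rw [h4]
        refine sum_le_sum_of_subset fun h hh => ?_
        obtain ⟨s, hs, rfl⟩ := mem_image.1 hh
        exact (mem_filter.1 hs).2
      rw [h2] at h1
      omega
    -- boundary cells and sites
    let B : Finset G := ((K ×ˢ M).image (fun z => z.1 * z.2⁻¹)).filter (fun g => g ∉ K)
    let Vt : Finset G := (B ×ˢ M).image (fun z => z.1 * z.2)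
    have hVt : ∀ g ∈ B, ∀ m ∈ M, g * m ∈ Vt := fun g hg m hm => mem_image.2 ⟨(g, m), mem_product.2 ⟨hg, hm⟩, rfl⟩
    obtain ⟨ω, hω⟩ := (unif Vt A).lll_symm (ι := B)
      (fun g ω => (fun m : {m : G // m ∈ M ∧ m ∉ I g.1} => ω ⟨g.1 * m.1, hVt g.1 g.2 m.1 m.2.1⟩) ∈ Sens M μ (I g.1))
      (fun g => univ.filter (fun v : Vt => ∃ m ∈ M, v.1 = g.1 * m))
      (by
        intro g ω ω' hωω
        have : (fun m : {m : G // m ∈ M ∧ m ∉ I g.1} => ω ⟨g.1 * m.1, hVt g.1 g.2 m.1 m.2.1⟩) =
            fun m : {m : G // m ∈ M ∧ m ∉ I g.1} => ω' ⟨g.1 * m.1, hVt g.1 g.2 m.1 m.2.1⟩ := by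
          funext m
          exact hωω _ (by
            simp only [coe_filter, mem_univ, true_and, Set.mem_setOf_eq]
            exact ⟨m.1, m.2.1, rfl⟩)
        show (_ ∈ Sens M μ (I g.1)) = (_ ∈ Sens M μ (I g.1))
        rw [this])
      (1 / (4 * (M.card : ℝ) ^ 2)) (M.card ^ 2)
      (by
        intro g
        rw [unif_P]
        haveI := hfinI g.1
        have hgK : g.1 ∉ K := (mem_filter.1 g.2).2
        have h1 := count_restr (V := Vt) (A := A) (fun m : {m : G // m ∈ M ∧ m ∉ I g.1} =>
          (⟨g.1 * m.1, hVt g.1 g.2 m.1 m.2.1⟩ : Vt)) (by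
            intro a b hab
            have := congrArg Subtype.val hab
            exact Subtype.ext (mul_left_cancel this)) (Sens M μ (I g.1))
        have h2 := hfew (I g.1) (hIM _) (hI1 _ hgK) (hIw _ hgK)
        have h3 : Fintype.card {m : G // m ∈ M ∧ m ∉ I g.1} = M.card - (I g.1).card := by
          rw [← card_sdiff_of_subset (hIM g.1)]
          exact Fintype.card_of_subtype _ (fun m => mem_sdiff)
        rw [h3] at h1
        rw [Nat.card_eq_fintype_card (α := A)] at h2
        have ha : (0 : ℝ) < (Fintype.card A : ℝ) := by exact_mod_cast Fintype.card_pos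
        have hm : (0 : ℝ) < (M.card : ℝ) := by exact_mod_cast card_pos.2 ⟨1, hM⟩
        have h1' : (Nat.card {ω : Vt → A // (fun m : {m : G // m ∈ M ∧ m ∉ I g.1} =>
            ω ⟨g.1 * m.1, hVt g.1 g.2 m.1 m.2.1⟩) ∈ Sens M μ (I g.1)} : ℝ) *
            (Fintype.card A : ℝ) ^ (M.card - (I g.1).card) =
            (Nat.card (Sens M μ (I g.1)) : ℝ) * (Fintype.card A : ℝ) ^ Fintype.card Vt := by exact_mod_cast h1
        have h2' : 4 * (M.card : ℝ) ^ 2 * (Nat.card (Sens M μ (I g.1)) : ℝ) ≤
            (Fintype.card A : ℝ) ^ (M.card - (I g.1).card) := by exact_mod_cast h2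
        rw [div_le_div_iff₀ (by positivity) (by positivity), one_mul]
        have hp : (0 : ℝ) < (Fintype.card A : ℝ) ^ (M.card - (I g.1).card) := by positivity
        have hq : (0 : ℝ) < (Fintype.card A : ℝ) ^ Fintype.card Vt := by positivity
        refine le_of_mul_le_mul_right ?_ hp
        calc _ = 4 * (M.card : ℝ) ^ 2 * ((Nat.card (Sens M μ (I g.1)) : ℝ) * (Fintype.card A : ℝ) ^ Fintype.card Vt) := by
              rw [← h1']; ring
          _ = (4 * (M.card : ℝ) ^ 2 * (Nat.card (Sens M μ (I g.1)) : ℝ)) * (Fintype.card A : ℝ) ^ Fintype.card Vt := by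
              ring
          _ ≤ (Fintype.card A : ℝ) ^ (M.card - (I g.1).card) * (Fintype.card A : ℝ) ^ Fintype.card Vt :=
              mul_le_mul_of_nonneg_right h2' hq.le
          _ = _ := by ring)
      (by
        have hm : (1 : ℝ) ≤ (M.card : ℝ) := by exact_mod_cast card_pos.2 ⟨1, hM⟩
        rw [div_le_div_iff₀ (by positivity) (by positivity)]
        nlinarith)
      (by
        have hm : (0 : ℝ) < (M.card : ℝ) := by exact_mod_cast card_pos.2 ⟨1, hM⟩
        push_cast
        field_simp
        norm_num)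
      (by
        intro g
        have hsub : {g' : B | g' ≠ g ∧ ¬ Disjoint (univ.filter (fun v : Vt => ∃ m ∈ M, v.1 = g.1 * m))
            (univ.filter (fun v : Vt => ∃ m ∈ M, v.1 = g'.1 * m))} ⊆
            {g' : B | g'.1 ∈ (M ×ˢ M).image (fun z => g.1 * z.1 * z.2⁻¹)} := by
          rintro g' ⟨_, hd⟩
          rw [not_disjoint_iff] at hd
          obtain ⟨v, hv, hv'⟩ := hd
          obtain ⟨m, hm, h1⟩ := (mem_filter.1 hv).2
          obtain ⟨m', hm', h2⟩ := (mem_filter.1 hv').2
          refine mem_image.2 ⟨(m, m'), mem_product.2 ⟨hm, hm'⟩, ?_⟩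
          show g.1 * m * m'⁻¹ = g'.1
          rw [← h1, h2]
          group
        refine le_trans (Set.ncard_le_ncard hsub (Set.toFinite _)) ?_
        have h3 : {g' : B | g'.1 ∈ (M ×ˢ M).image (fun z => g.1 * z.1 * z.2⁻¹)}.ncard ≤
            ((M ×ˢ M).image (fun z => g.1 * z.1 * z.2⁻¹)).card := by
          rw [← Set.ncard_coe_finset]
          refine Set.ncard_le_ncard_of_injOn (fun g' => g'.1) (fun g' hg' => hg') ?_ (Set.toFinite _)
          intro a _ b _ hab
          exact Subtype.ext hab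
        refine le_trans h3 (le_trans card_image_le ?_)
        rw [card_product, sq])
    obtain ⟨a0⟩ := hA
    refine ⟨fun g => if h : g ∈ Vt then ω ⟨g, h⟩ else a0, fun u u' g hg => ?_⟩
    set c : G → A := fun g => if h : g ∈ Vt then ω ⟨g, h⟩ else a0 with hc
    show μ (fun m => ext K c u (g * m)) = μ (fun m => ext K c u' (g * m))
    by_cases hgB : g ∈ B
    · by_contra hne
      refine hω ⟨g, hgB⟩ ?_
      refine ⟨fun m => ext K c u (g * m), fun m => ext K c u' (g * m), ?_, hne⟩
      intro m hm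
      have hmK : g * m ∉ K := fun h => hm.2 (mem_filter.2 ⟨hm.1, h⟩)
      have hmV : g * m ∈ Vt := hVt g hgB m hm.1
      have h1 : c (g * m) = ω ⟨g * m, hmV⟩ := by
        rw [hc]
        exact dif_pos hmV
      exact ⟨(ext_out K c u _ hmK).trans h1, (ext_out K c u' _ hmK).trans h1⟩
    · congr 1
      funext m
      have hmK : g * m.1 ∉ K := by
        intro h
        apply hgB
        refine mem_filter.2 ⟨mem_image.2 ⟨(g * m.1, m.1), mem_product.2 ⟨h, m.2⟩, ?_⟩, hg⟩
        show g * m.1 * m.1⁻¹ = g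
        group
      rw [ext_out K c u _ hmK, ext_out K c u' _ hmK]
  · intro x y hxy h
    exact hinj x y hxy (fun g => congrFun h g)

end H71G
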