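import Pool.Agent.Lib.H71G.Core

/-!
# The version relative to a surjunctive subgroup
-/

set_option autoImplicit false

namespace H71G

open Finset

/-- Gottschalk's surjunctivity conjecture holds for the group H: for every finite alphabet, every injective continuous
self-map of the full shift over H which commutes with the shift action of H is surjective. -/
def Surjunctive (H : Type) [Group H] : Prop :=
  ∀ (A : Type) [Finite A] [TopologicalSpace A] [DiscreteTopology A] (σ : (H → A) → (H → A)), Continuous σ →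
    (∀ (h : H) (x : H → A), σ (fun k => x (h⁻¹ * k)) = fun k => σ x (h⁻¹ * k)) →
    Function.Injective σ → Function.Surjective σ

/-- Approximate solutions suffice (compactness). -/
theorem surj_of_approx {V A : Type} [Finite A] [TopologicalSpace A] [DiscreteTopology A]
    (τ : (V → A) → (V → A)) (hτ : Continuous τ)
    (hfin : ∀ (y : V → A) (F : Finset V), ∃ x : V → A, ∀ g ∈ F, τ x g = y g) : Function.Surjective τ := by
  classical
  intro y
  have hclosed : ∀ F : Finset V, IsClosed {x : V → A | ∀ g ∈ F, τ x g = y g} := by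
    intro F
    have : {x : V → A | ∀ g ∈ F, τ x g = y g} = ⋂ g ∈ F, {x | τ x g = y g} := by
      ext x; simp
    rw [this]
    refine isClosed_biInter fun g _ => ?_
    have hc : Continuous fun x => τ x g := (continuous_apply g).comp hτ
    exact (isClosed_singleton (x := y g)).preimage hc
  have hne := IsCompact.nonempty_iInter_of_directed_nonempty_isCompact_isClosed
    (fun F : Finset V => {x : V → A | ∀ g ∈ F, τ x g = y g})
    (by
      intro F F'
      refine ⟨F ∪ F', fun x hx g hg => hx g (mem_union_left _ hg), fun x hx g hg => hx g (mem_union_right _ hg)⟩)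
    (fun F => hfin y F) (fun F => (hclosed F).isCompact) hclosed
  obtain ⟨x, hx⟩ := hne
  refine ⟨x, funext fun g => ?_⟩
  have := Set.mem_iInter.1 hx {g}
  exact this g (mem_singleton_self g)

section rel

variable {G : Type} [Group G] (H : Subgroup G)

/-- The right cosets. -/
abbrev Qt : Type := Quotient (QuotientGroup.rightRel H)

/-- The class of an element. -/
def mk (g : G) : Qt H := Quotient.mk _ g

theorem mk_eq (g g' : G) : mk H g = mk H g' ↔ g' * g⁻¹ ∈ H := by
  unfold mk
  rw [Quotient.eq]
  exact QuotientGroup.rightRel_apply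

theorem mk_out (a : Qt H) : mk H a.out = a := Quotient.out_eq a

theorem mk_mul (h g : G) (hh : h ∈ H) : mk H (h * g) = mk H g := by
  rw [mk_eq]
  have : g * (h * g)⁻¹ = h⁻¹ := by group
  rw [this]
  exact H.inv_mem hh

theorem out_mem (g : G) : g * (mk H g).out⁻¹ ∈ H := by
  rw [← mk_eq, mk_out]

variable {H}

/-- The weights on the right cosets. -/
noncomputable def wb (N : G → Finset G) (w : G → G → ℕ) (a b : Qt H) : ℕ :=
  open Classical in if a = b then 0 else ∑ u ∈ (N a.out).filter (fun u => mk H u = b), w a.out u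

theorem wb_le_of {N : G → Finset G} {w : G → G → ℕ} (hsymm : ∀ u v, w u v = w v u)
    (hsupp : ∀ u v, w u v ≠ 0 → v ∈ N u) (hinv : ∀ h ∈ H, ∀ u v, w (h * u) (h * v) = w u v) (a b : Qt H) :
    wb N w a b = wb N w b a := by
  classical
  unfold wb
  by_cases hab : a = b
  · rw [if_pos hab, if_pos hab.symm]
  · rw [if_neg hab, if_neg (fun h => hab h.symm)]
    have key : ∀ u, mk H u = b → w a.out u = w b.out (b.out * u⁻¹ * a.out) := by
      intro u hu
      have h1 : u * b.out⁻¹ ∈ H := by
        rw [← mk_eq, mk_out, hu]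
      have h2 := hinv _ h1 (b.out * u⁻¹ * a.out) b.out
      have e1 : u * b.out⁻¹ * (b.out * u⁻¹ * a.out) = a.out := by group
      have e2 : u * b.out⁻¹ * b.out = u := by group
      rw [e1, e2] at h2
      rw [h2, hsymm]
    have hmk : ∀ u, mk H u = b → mk H (b.out * u⁻¹ * a.out) = a := by
      intro u hu
      have h1 : u * b.out⁻¹ ∈ H := by
        rw [← mk_eq, mk_out, hu]
      have h2 : b.out * u⁻¹ ∈ H := by
        have := H.inv_mem h1
        have e : (u * b.out⁻¹)⁻¹ = b.out * u⁻¹ := by group
        rwa [e] at this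
      rw [mk_mul H _ _ h2, mk_out]
    refine sum_bij_ne_zero (fun u _ _ => b.out * u⁻¹ * a.out) ?_ ?_ ?_ ?_
    · intro u hu hne
      rw [mem_filter] at hu ⊢
      refine ⟨hsupp _ _ ?_, hmk u hu.2⟩
      rwa [← key u hu.2]
    · intro u _ _ v _ _ huv
      have := mul_left_cancel (mul_right_cancel huv)
      exact inv_injective this
    · intro v hv hne
      rw [mem_filter] at hv
      have h1 : v * a.out⁻¹ ∈ H := by
        rw [← mk_eq, mk_out, hv.2]
      have h2 : a.out * v⁻¹ ∈ H := by
        have := H.inv_mem h1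
        have e : (v * a.out⁻¹)⁻¹ = a.out * v⁻¹ := by group
        rwa [e] at this
      have hu : mk H (a.out * v⁻¹ * b.out) = b := by rw [mk_mul H _ _ h2, mk_out]
      have e3 : b.out * (a.out * v⁻¹ * b.out)⁻¹ * a.out = v := by group
      have h3 := key _ hu
      rw [e3] at h3
      refine ⟨a.out * v⁻¹ * b.out, mem_filter.2 ⟨hsupp _ _ (by rwa [h3]), hu⟩, by rwa [h3], e3⟩
    · intro u hu _
      rw [mem_filter] at hu
      exact key u hu.2

theorem rel_robust (hH : Surjunctive H) {A : Type} [Finite A] [TopologicalSpace A] [DiscreteTopology A]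
    (τ : (G → A) → (G → A)) (hτ : Continuous τ)
    (heq : ∀ h ∈ H, ∀ x : G → A, τ (fun g => x (h⁻¹ * g)) = fun g => τ x (h⁻¹ * g))
    (N : G → Finset G) (w : G → G → ℕ) (hsymm : ∀ u v, w u v = w v u) (hsupp : ∀ u v, w u v ≠ 0 → v ∈ N u)
    (hinv : ∀ h ∈ H, ∀ u v, w (h * u) (h * v) = w u v)
    (c : G → A) (hcH : ∀ h ∈ H, ∀ g, c (h * g) = c g)
    (hc : ∀ (g : G) (E : Set G) (x : G → A), (∀ h ∈ H, ∀ u ∈ E, h * u ∈ E) → g ∉ E → (∀ u, u ∉ E → x u = c u) →
      (open Classical in 2 * ∑ u ∈ (N g).filter (fun u => u ∈ E), w g u ≤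
        ∑ u ∈ (N g).filter (fun u => u * g⁻¹ ∉ H), w g u) → τ x g = τ c g)
    (hinj : ∀ x y : G → A, (∃ F : Finset G, ∀ g, x g ≠ y g → ∃ h ∈ H, ∃ f ∈ F, g = h * f) → τ x = τ y → x = y) :
    Function.Surjective τ := by
  classical
  refine surj_of_approx τ hτ fun t F => ?_
  obtain ⟨K, hK, hw⟩ := exists_closed (fun a : Qt H => (N a.out).image (mk H)) (wb N w) (wb_le_of hsymm hsupp hinv)
    (by
      intro a b hne
      unfold wb at hne
      by_cases hab : a = b
      · rw [if_pos hab] at hne; exact absurd rfl hne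
      · rw [if_neg hab] at hne
        obtain ⟨u, hu, _⟩ := exists_ne_zero_of_sum_ne_zero hne
        rw [mem_filter] at hu
        exact mem_image.2 ⟨u, hu.1, hu.2⟩) (F.image (mk H))
  -- the outside is not influenced
  have hout : ∀ x : G → A, (∀ u, mk H u ∉ K → x u = c u) → ∀ g, mk H g ∉ K → τ x g = τ c g := by
    intro x hx g hg
    set a := mk H g with ha
    set r := a.out with hr
    have hgr : g * r⁻¹ ∈ H := out_mem H g
    have hmr : mk H r = a := mk_out H a
    have hview : 2 * ∑ u ∈ (N r).filter (fun u => u ∈ {u | mk H u ∈ K}), w r u ≤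
        ∑ u ∈ (N r).filter (fun u => u * r⁻¹ ∉ H), w r u := by
      have h1 := hw a hg
      have h2 : ∑ b ∈ K, wb N w a b = ∑ u ∈ (N r).filter (fun u => u ∈ {u | mk H u ∈ K}), w r u := by
        have e1 : ∀ b ∈ K, wb N w a b = ∑ u ∈ ((N r).filter (fun u => mk H u ∈ K)).filter (fun u => mk H u = b), w r u := by
          intro b hb
          unfold wb
          have hne : a ≠ b := fun h => hg (h ▸ hb)
          rw [if_neg hne, filter_filter]
          refine sum_congr ?_ fun _ _ => rfl
          ext u
          simp only [mem_filter]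
          constructor
          · rintro ⟨h1, h2⟩
            exact ⟨h1, h2 ▸ hb, h2⟩
          · rintro ⟨h1, _, h2⟩
            exact ⟨h1, h2⟩
        rw [sum_congr rfl e1]
        exact sum_fiberwise_of_maps_to (fun u hu => (mem_filter.1 hu).2) _
      have h3 : ∑ b ∈ (N r).image (mk H), wb N w a b = ∑ u ∈ (N r).filter (fun u => u * r⁻¹ ∉ H), w r u := by
        have e1 : ∀ b ∈ (N r).image (mk H), wb N w a b =
            ∑ u ∈ (N r).filter (fun u => mk H u = b), (if mk H u = a then 0 else w r u) := by
          intro b hb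
          unfold wb
          by_cases hab : a = b
          · rw [if_pos hab]
            symm
            refine sum_eq_zero fun u hu => ?_
            rw [if_pos ((mem_filter.1 hu).2.trans hab.symm)]
          · rw [if_neg hab]
            refine sum_congr rfl fun u hu => ?_
            rw [if_neg (fun h => hab (h.symm.trans (mem_filter.1 hu).2))]
        rw [sum_congr rfl e1]
        rw [sum_fiberwise_of_maps_to (fun u hu => mem_image_of_mem _ hu) (fun u => if mk H u = a then 0 else w r u)]
        rw [sum_filter]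
        refine sum_congr rfl fun u _ => ?_
        have e2 : mk H u = a ↔ u * r⁻¹ ∈ H := by
          rw [← hmr, eq_comm, mk_eq]
        by_cases hu : u * r⁻¹ ∈ H
        · rw [if_pos (e2.2 hu), if_neg (not_not.2 hu)]
        · rw [if_neg (fun h => hu (e2.1 h)), if_pos hu]
      rw [h2] at h1
      calc _ ≤ _ := h1
        _ = _ := h3
    -- move to the representative
    have key : ∀ x' : G → A, τ x' g = τ (fun k => x' (g * r⁻¹ * k)) r := by
      intro x'
      have h1 := congrFun (heq (g * r⁻¹)⁻¹ (H.inv_mem hgr) x') r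
      rw [inv_inv] at h1
      rw [h1]
      congr 1
      group
    rw [key x, key c]
    have h2 : (fun k => c (g * r⁻¹ * k)) = c := by
      funext k
      exact hcH _ hgr k
    rw [h2]
    refine hc r {u | mk H u ∈ K} _ ?_ ?_ ?_ ?_
    · intro h hh u hu
      show mk H (h * u) ∈ K
      rw [mk_mul H h u hh]
      exact hu
    · show ¬ mk H r ∈ K
      rw [hmr]
      exact hg
    · intro u hu
      have hu' : mk H u ∉ K := hu
      show x (g * r⁻¹ * u) = c u
      rw [hx _ (by rwa [mk_mul H _ _ hgr]), hcH _ hgr]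
    · refine le_trans (le_of_eq ?_) (le_trans hview (le_of_eq ?_))
      · congr 2
        ext u
        simp only [mem_filter]
      · refine sum_congr ?_ fun _ _ => rfl
        ext u
        simp only [mem_filter]
  -- the full shift over H
  obtain ⟨ex, hex⟩ : ∃ ex : (H → (K → A)) → (G → A), ∀ y g, ex y g =
      if h : mk H g ∈ K then y ⟨g * (mk H g).out⁻¹, out_mem H g⟩ ⟨mk H g, h⟩ else c g := ⟨_, fun _ _ => rfl⟩
  have ex_out : ∀ y g, mk H g ∉ K → ex y g = c g := fun y g hg => by rw [hex, dif_neg hg]
  have ex_in : ∀ y (h : H) (b : K), ex y (h.1 * b.1.out) = y h b := by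
    intro y h b
    have e1 : mk H (h.1 * b.1.out) = b.1 := by rw [mk_mul H _ _ h.2, mk_out]
    have e2 : mk H (h.1 * b.1.out) ∈ K := by rw [e1]; exact b.2
    rw [hex, dif_pos e2]
    have e3 : (⟨h.1 * b.1.out * (mk H (h.1 * b.1.out)).out⁻¹, out_mem H _⟩ : H) = h := by
      apply Subtype.ext
      show h.1 * b.1.out * (mk H (h.1 * b.1.out)).out⁻¹ = h.1
      rw [e1]
      group
    have e4 : (⟨mk H (h.1 * b.1.out), e2⟩ : K) = b := Subtype.ext e1
    rw [e3, e4]
  have ex_eq : ∀ (k : H) (y : H → (K → A)), ex (fun h => y (k⁻¹ * h)) = fun g => ex y (k.1⁻¹ * g) := by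
    intro k y
    funext g
    by_cases hg : mk H g ∈ K
    · have e0 : g = (⟨g * (mk H g).out⁻¹, out_mem H g⟩ : H).1 * (⟨mk H g, hg⟩ : K).1.out := by
        show g = g * (mk H g).out⁻¹ * (mk H g).out
        group
      have e1 : k.1⁻¹ * g =
          (k⁻¹ * ⟨g * (mk H g).out⁻¹, out_mem H g⟩ : H).1 * (⟨mk H g, hg⟩ : K).1.out := by
        show k.1⁻¹ * g = (k.1⁻¹ * (g * (mk H g).out⁻¹)) * (mk H g).out
        group
      calc ex (fun h => y (k⁻¹ * h)) g
          = ex (fun h => y (k⁻¹ * h)) ((⟨g * (mk H g).out⁻¹, out_mem H g⟩ : H).1 * (⟨mk H g, hg⟩ : K).1.out) :=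
            congrArg _ e0
        _ = ex y ((k⁻¹ * ⟨g * (mk H g).out⁻¹, out_mem H g⟩ : H).1 * (⟨mk H g, hg⟩ : K).1.out) := by
            rw [ex_in, ex_in]
        _ = ex y (k.1⁻¹ * g) := congrArg _ e1.symm
    · rw [ex_out _ _ hg, ex_out _ _ (by rwa [mk_mul H _ _ (H.inv_mem k.2)]), hcH _ (H.inv_mem k.2)]
  let Φ : (H → (K → A)) → (H → (K → A)) := fun y h b => τ (ex y) (h.1 * b.1.out)
  have hΦ : Function.Surjective Φ := by
    refine hH (K → A) Φ ?_ ?_ ?_
    · refine continuous_pi fun h => continuous_pi fun b => ?_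
      refine (continuous_apply _).comp (hτ.comp ?_)
      refine continuous_pi fun g => ?_
      by_cases hg : mk H g ∈ K
      · have : (fun y : H → (K → A) => ex y g) = fun y => y ⟨g * (mk H g).out⁻¹, out_mem H g⟩ ⟨mk H g, hg⟩ := by
          funext y
          rw [hex, dif_pos hg]
        rw [this]
        exact (continuous_apply _).comp (continuous_apply _)
      · have : (fun y : H → (K → A) => ex y g) = fun _ => c g := by
          funext y
          rw [hex, dif_neg hg]
        rw [this]
        exact continuous_const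
    · intro k y
      funext h b
      show τ (ex (fun h => y (k⁻¹ * h))) (h.1 * b.1.out) = τ (ex y) ((k⁻¹ * h : H).1 * b.1.out)
      rw [ex_eq, heq k.1 k.2]
      show τ (ex y) (k.1⁻¹ * (h.1 * b.1.out)) = τ (ex y) (k.1⁻¹ * h.1 * b.1.out)
      rw [mul_assoc]
    · intro y y' hyy
      have h1 : τ (ex y) = τ (ex y') := by
        funext g
        by_cases hg : mk H g ∈ K
        · have e0 : g = (⟨g * (mk H g).out⁻¹, out_mem H g⟩ : H).1 * (⟨mk H g, hg⟩ : K).1.out := by
            show g = g * (mk H g).out⁻¹ * (mk H g).out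
            group
          have := congrFun (congrFun hyy ⟨g * (mk H g).out⁻¹, out_mem H g⟩) ⟨mk H g, hg⟩
          rw [e0]
          exact this
        · rw [hout _ (fun u hu => ex_out y u hu) g hg, hout _ (fun u hu => ex_out y' u hu) g hg]
      have h2 := hinj _ _ ⟨K.image Quotient.out, fun g hg => by
        have hgK : mk H g ∈ K := by
          by_contra hgK
          exact hg (by rw [ex_out y g hgK, ex_out y' g hgK])
        exact ⟨g * (mk H g).out⁻¹, out_mem H g, (mk H g).out, mem_image_of_mem _ hgK, by group⟩⟩ h1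
      funext h b
      rw [← ex_in y h b, ← ex_in y' h b, h2]
  obtain ⟨y, hy⟩ := hΦ (fun h b => t (h.1 * b.1.out))
  refine ⟨ex y, fun g hg => ?_⟩
  have hgK : mk H g ∈ K := hK (mem_image_of_mem _ hg)
  have e0 : g = (⟨g * (mk H g).out⁻¹, out_mem H g⟩ : H).1 * (⟨mk H g, hgK⟩ : K).1.out := by
    show g = g * (mk H g).out⁻¹ * (mk H g).out
    group
  have h3 := congrFun (congrFun hy ⟨g * (mk H g).out⁻¹, out_mem H g⟩) ⟨mk H g, hgK⟩
  rw [e0]
  exact h3

end rel

end H71G
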